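import Pool.Agent.W734.TWB.Stms

/-!
# TWB-CLAMP
-/

set_option autoImplicit false

open MeasureTheory Set

namespace Pool.Agent.W74.TWB

open Pool.Agent.W734.TWB

theorem clamp : S_CLAMP := by
  intro ε hε
  set e : ℝ := min 1 ε / 3 with he
  have he0 : 0 < e := by
    have : 0 < min 1 ε := lt_min one_pos hε
    positivity
  have he1 : e ≤ 1 / 3 := by
    have := min_le_left 1 ε
    rw [he]
    linarith
  have he2 : 3 * e ≤ ε := by
    have := min_le_right 1 ε
    rw [he]
    linarith
  have h1e : 0 < 1 + e := by linarith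
  let f : ContDiffBump (1 / 2 : ℝ) :=
    { rIn := 1 / (2 * (1 + e))
      rOut := 1 / 2
      rIn_pos := by positivity
      rIn_lt_rOut := by
        rw [div_lt_div_iff₀ (by positivity) (by norm_num)]
        linarith }
  set g : ℝ → ℝ := f.normed volume with hg
  have hg0 : ∀ x, 0 ≤ g x := fun x => f.nonneg_normed x
  have hg1 : ∀ x, g x ≤ 1 + e := by
    intro x
    have h1 := f.normed_le_div_measure_closedBall_rIn volume x
    have h2 : volume.real (Metric.closedBall (1 / 2 : ℝ) f.rIn) = 1 / (1 + e) := by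
      rw [Real.volume_real_closedBall f.rIn_pos.le]
      change 2 * (1 / (2 * (1 + e))) = _
      field_simp
    rw [h2, one_div_one_div] at h1
    exact h1
  have hgc : ContDiff ℝ ((⊤ : ℕ∞) : WithTop ℕ∞) g := f.contDiff_normed
  have hgcont : Continuous g := hgc.continuous
  have hgi : ∫ x, g x = 1 := f.integral_normed
  have hgint : Integrable g := f.integrable_normed
  have hsupp : ∀ x, x ≤ 0 ∨ 1 ≤ x → g x = 0 := by
    intro x hx
    by_contra hne
    have h1 : x ∈ Function.support g := hne
    rw [hg, f.support_normed_eq, Metric.mem_ball, Real.dist_eq] at h1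
    have h2 : |x - 1 / 2| < 1 / 2 := h1
    rw [abs_lt] at h2
    rcases hx with hx | hx <;> linarith
  set T : ℝ → ℝ := fun s => ∫ x in (0 : ℝ)..s, g x with hT
  have hT' : ∀ s, HasDerivAt T (g s) s := fun s =>
    intervalIntegral.integral_hasDerivAt_right (hgcont.intervalIntegrable _ _)
      (hgcont.stronglyMeasurableAtFilter _ _) hgcont.continuousAt
  have hTI : ∀ s, T s = ∫ x in Iic s, g x := by
    intro s
    have h1 := intervalIntegral.integral_Iic_sub_Iic (a := (0 : ℝ)) (b := s)
      hgint.integrableOn hgint.integrableOn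
    have h2 : ∫ x in Iic (0 : ℝ), g x = 0 := by
      rw [setIntegral_congr_fun measurableSet_Iic (g := fun _ => (0 : ℝ))
        (fun x hx => hsupp x (Or.inl hx))]
      simp
    rw [h2, sub_zero] at h1
    exact h1.symm
  have hT0 : ∀ s, 0 ≤ T s := by
    intro s
    rw [hTI]
    exact integral_nonneg hg0
  have hT1 : ∀ s, T s ≤ 1 := by
    intro s
    rw [hTI, ← hgi]
    exact setIntegral_le_integral hgint (Filter.Eventually.of_forall hg0)
  have hTa : ∀ s, |T s| ≤ (1 + e) * |s| := by
    intro s
    have h1 := intervalIntegral.norm_integral_le_of_norm_le_const (a := (0 : ℝ)) (b := s)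
      (f := g) (C := 1 + e) (fun x _ => by
        rw [Real.norm_eq_abs, abs_of_nonneg (hg0 x)]
        exact hg1 x)
    rw [sub_zero, Real.norm_eq_abs] at h1
    exact h1
  refine ⟨T, ?_, fun s => ⟨hT0 s, hT1 s⟩, ?_, ?_, ?_⟩
  · have h1 : deriv T = g := funext fun s => (hT' s).deriv
    rw [contDiff_infty_iff_deriv, h1]
    exact ⟨fun s => (hT' s).differentiableAt, hgc⟩
  · intro s
    rw [(hT' s).deriv, abs_of_nonneg (hg0 s)]
    have := hg1 s
    linarith
  · intro s
    rcases le_total (|s|) 1 with h | h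
    · have h1 : T s ^ 2 ≤ ((1 + e) * |s|) ^ 2 := by
        rw [← sq_abs (T s)]
        exact pow_le_pow_left₀ (abs_nonneg _) (hTa s) 2
      have h2 : ((1 + e) * |s|) ^ 2 = s ^ 2 + (2 * e + e ^ 2) * s ^ 2 := by
        rw [mul_pow, sq_abs]
        ring
      have h3 : s ^ 2 ≤ 1 := by
        rw [← sq_abs]
        exact pow_le_one₀ (abs_nonneg _) h
      have h4 : (2 * e + e ^ 2) * s ^ 2 ≤ (2 * e + e ^ 2) * 1 :=
        mul_le_mul_of_nonneg_left h3 (by positivity)
      nlinarith
    · have h1 : T s ^ 2 ≤ 1 := pow_le_one₀ (hT0 s) (hT1 s)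
      have h2 : 1 ≤ s ^ 2 := by
        rw [← sq_abs]
        exact one_le_pow₀ h
      linarith
  · intro s hs
    rw [hTI, ← hgi]
    apply setIntegral_eq_integral_of_forall_compl_eq_zero
    intro x hx
    rw [mem_Iic, not_le] at hx
    exact hsupp x (Or.inr (hs.trans hx.le))

end Pool.Agent.W74.TWB
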